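import Pool.Agent.K1H44.LC.Plan

set_option autoImplicit false

open Finset

namespace Pool.Agent.K1H74.LC

open Pool.Agent.K1H44.LC

theorem log_pow_mul (p : ℕ) (hp : 1 < p) (m : ℕ) (hm : m ≠ 0) (u : ℕ) :
    Nat.log p (p ^ u * m) = u + Nat.log p m := by
  induction u with
  | zero => simp
  | succ u ih =>
    have h0 : p ^ u * m ≠ 0 := Nat.mul_ne_zero (pow_ne_zero _ (by omega)) hm
    have e : p ^ (u + 1) * m = p ^ u * m * p := by ring
    rw [e, Nat.log_mul_base hp h0, ih]
    ring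

theorem summ (p q : ℕ) (h : Pair p q) :
    Summable fun u : ℕ => ‖(1 : ℝ) / ((p : ℝ) ^ u * (q : ℝ) ^ L p q u)‖ := by
  have hp : (2 : ℝ) ≤ p := by exact_mod_cast h.1.two_le
  have hq : (2 : ℝ) ≤ q := by exact_mod_cast h.2.1.two_le
  have hs : Summable fun u : ℕ => (1 / (p : ℝ)) ^ u := by
    apply summable_geometric_of_lt_one (by positivity)
    rw [div_lt_one (by linarith)]
    linarith
  refine Summable.of_nonneg_of_le (fun u => norm_nonneg _) (fun u => ?_) hs
  rw [Real.norm_of_nonneg (by positivity), one_div_pow]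
  apply one_div_le_one_div_of_le (by positivity)
  exact le_mul_of_one_le_right (by positivity) (one_le_pow₀ (by linarith))

theorem t_PROD : S_PROD := by
  intro p q h
  have h' : Pair q p := ⟨h.2.1, h.1, h.2.2.symm⟩
  unfold A
  rw [tsum_mul_tsum_of_summable_norm (summ p q h) (summ q p h')]
  apply tsum_congr
  intro x
  have hp0 : p ≠ 0 := h.1.ne_zero
  have hq0 : q ≠ 0 := h.2.1.ne_zero
  have e1 : Nat.log p (p ^ x.1 * q ^ x.2) = x.1 + L q p x.2 :=
    log_pow_mul p h.1.one_lt _ (pow_ne_zero _ hq0) _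
  have e2 : Nat.log q (p ^ x.1 * q ^ x.2) = x.2 + L p q x.1 := by
    rw [mul_comm]
    exact log_pow_mul q h.2.1.one_lt _ (pow_ne_zero _ hp0) _
  rw [e1, e2, div_mul_div_comm, one_mul]
  push_cast
  congr 1
  ring

end Pool.Agent.K1H74.LC
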